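import Pool.Agent.Helper41.LD2.Defs
import Pool.Agent.Helper52.LD.GC0

/-!
# Project LD2, block GC2: the gain from the pair correlations, for a general sequence of functions
-/

set_option autoImplicit false

namespace Pool.Agent.Helper52.LD2

open Set MeasureTheory Filter Topology
open Pool.Agent.Helper41.LD (av var ind haar idx DiscLe)
open Pool.Agent.Helper41.LD2

variable {U : ℕ → ℝ → ℝ}

/-- the signed sum of the averages of one level is at most `1` -/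
theorem A_sum_le (hU : ∀ j, Measurable (U j)) (k j : ℕ) (ε : ℕ → ℝ) (hε : ∀ i, |ε i| ≤ 1) (m : ℕ) (a : ℝ) {ℓ : ℝ} (hℓ : 0 < ℓ) :
    |∑ i ∈ Finset.range m, ε i * A U k i j a ℓ| ≤ 1 := by
  have hint : ∀ i, IntervalIntegrable (fun x => haar k i (U j x)) volume a (a + ℓ) := fun i =>
    Helper34.LD.ii_of_bdd ((Helper34.LD.measurable_haar k i).comp (hU j)) (fun _ => Helper34.LD.haar_abs_le k i _) _ _
  have e : ∑ i ∈ Finset.range m, ε i * A U k i j a ℓ =
      (∫ x in a..(a + ℓ), ∑ i ∈ Finset.range m, ε i * haar k i (U j x)) / ℓ := by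
    rw [intervalIntegral.integral_finsetSum fun i _ => (hint i).const_mul _, Finset.sum_div]
    refine Finset.sum_congr rfl fun i _ => ?_
    rw [intervalIntegral.integral_const_mul]
    unfold A av
    ring
  rw [e, abs_div, abs_of_pos hℓ, div_le_one hℓ]
  have h := intervalIntegral.norm_integral_le_of_norm_le_const (a := a) (b := a + ℓ)
    (f := fun x => ∑ i ∈ Finset.range m, ε i * haar k i (U j x)) (C := 1)
    fun x _ => by rw [Real.norm_eq_abs]; exact Helper52.LD.haar_disj k ε hε m _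
  rw [Real.norm_eq_abs, one_mul, add_sub_cancel_left, abs_of_pos hℓ] at h
  exact h

theorem gain {K t B : ℕ} (hK : 1 ≤ K) (hU : ∀ j, Measurable (U j)) {a ℓ : ℝ} (hℓ : 0 < ℓ) (hB : 1 ≤ B)
    (hPC : ∀ k < K, ∀ i < 2 ^ k, ∀ k' < K, ∀ i' < 2 ^ k',
      |(∑ b ∈ Finset.range B, (M U k i (a + b * (ℓ / B)) (ℓ / B) - M U k i a ℓ) * A U k' i' t (a + b * (ℓ / B)) (ℓ / B)) / B -
        (if k = k' ∧ i = i' then (1 / 2) ^ k else 0)| ≤ (1 / 2) ^ (4 * K)) (g : (Σ _ : ℕ, ℕ) → ℝ) :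
    1 / (2 * K) * (∑ p ∈ idx K, |g p| * (1 / 2) ^ p.1) * B ≤
      ∑ b ∈ Finset.range B, |∑ p ∈ idx K, g p * (M U p.1 p.2 (a + b * (ℓ / B)) (ℓ / B) - M U p.1 p.2 a ℓ)| := by
  have hℓB : 0 < ℓ / B := div_pos hℓ (by exact_mod_cast hB)
  refine Helper52.LD.gain_abs hK hB g (fun p b => M U p.1 p.2 (a + b * (ℓ / B)) (ℓ / B) - M U p.1 p.2 a ℓ)
    (fun k i b => A U k i t (a + b * (ℓ / B)) (ℓ / B)) ?_ ?_
  · intro k _ ε' hε' b _
    exact A_sum_le hU k t ε' hε' (2 ^ k) _ hℓB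
  · intro p hp k hk i hi
    exact hPC p.1 (Helper52.LD.mem_idx.1 hp).1 p.2 (Helper52.LD.mem_idx.1 hp).2 k hk i hi

end Pool.Agent.Helper52.LD2
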